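import Pool.Agent.Y981.QB.Fin4

/-!
Self-avoiding walks on the honeycomb lattice (brick-wall coordinates, same description as in the
frozen statement): an almost power law upper bound for the displacement of all the pieces of the walk
at once.
-/

set_option autoImplicit false

namespace Pool.Agent.Results.MP_b440f6_pr.AllSegments

/-- Adjacency in the honeycomb lattice (brick-wall model), as in the frozen statement. -/
def Nbr (p q : ℤ × ℤ) : Prop :=
  (p.2 = q.2 ∧ (p.1 - q.1 = 1 ∨ q.1 - p.1 = 1)) ∨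
    (p.1 = q.1 ∧ ((q.2 = p.2 + 1 ∧ Even (p.1 + p.2)) ∨ (p.2 = q.2 + 1 ∧ Even (q.1 + q.2))))

/-- The set of `n`-step self-avoiding walks from the origin. -/
def walks (n : ℕ) : Set (Fin (n + 1) → ℤ × ℤ) :=
  {ω | ω 0 = (0, 0) ∧ Function.Injective ω ∧ ∀ i : Fin n, Nbr (ω i.castSucc) (ω i.succ)}

/-- The vertex of the regular honeycomb lattice with edge length `1` in the plane, the origin at `0`,
which has the brick-wall coordinates `p`. -/
noncomputable def pos (p : ℤ × ℤ) : ℂ :=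
  ⟨√3 / 2 * p.1, (3 * p.2 - ((p.1 + p.2) % 2 : ℤ)) / 2⟩

/-- The probability that the `n`-step self-avoiding walk has property `A`. -/
noncomputable def prob (n : ℕ) (A : (Fin (n + 1) → ℤ × ℤ) → Prop) : ℝ :=
  ({ω ∈ walks n | A ω}.ncard : ℝ) / ((walks n).ncard : ℝ)

theorem pos_eq (p : ℤ × ℤ) : pos p = H978R2.Hex.pos p := by
  unfold pos H978R2.Hex.pos H978R2.Hex.ht
  push_cast
  rfl

theorem nbr_iff (p q : ℤ × ℤ) : Nbr p q ↔ H978R2.Hex.Adj p q := by
  obtain ⟨a, b⟩ := p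
  obtain ⟨x, y⟩ := q
  unfold Nbr H978R2.Hex.Adj
  simp only [Prod.mk_sub_mk, Prod.mk.injEq]
  constructor
  · rintro (⟨h1, h2 | h2⟩ | ⟨h1, ⟨h2, h3⟩ | ⟨h2, h3⟩⟩)
    · right; left; omega
    · left; omega
    · right; right; left; exact ⟨by omega, h3⟩
    · right; right; right; exact ⟨by omega, h3⟩
  · rintro (h | h | ⟨h, h'⟩ | ⟨h, h'⟩)
    · left; omega
    · left; omega
    · right; exact ⟨by omega, Or.inl ⟨by omega, h'⟩⟩
    · right; exact ⟨by omega, Or.inr ⟨by omega, h'⟩⟩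

theorem walks_eq (n : ℕ) : walks n = H978R2.Hex.saws n := by
  ext f
  unfold walks H978R2.Hex.saws
  simp only [Set.mem_ofPred_eq]
  constructor
  · rintro ⟨h1, h2, h3⟩
    exact ⟨h1, h2, fun i => (nbr_iff _ _).1 (h3 i)⟩
  · rintro ⟨h1, h2, h3⟩
    exact ⟨h1, h2, fun i => (nbr_iff _ _).2 (h3 i)⟩

/-- **Theorem.** On the honeycomb lattice (unit edges) there are constants `c, C > 0` such that for
all `n ≥ 16` and all real `T ≥ (log n)^2` the following holds with probability at least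
`1 - exp (-T)` for the uniform `n`-step self-avoiding walk `ω`: every piece of `ω`, from time `i` to
time `j > i`, has displacement at most `C (j - i)^{1 - c / log T}`. -/
theorem result : ∃ c C : ℝ, 0 < c ∧ 0 < C ∧ ∀ (n : ℕ) (T : ℝ), 16 ≤ n → Real.log n ^ 2 ≤ T →
    1 - Real.exp (-T) ≤ prob n (fun ω => ∀ i j : Fin (n + 1), i < j →
      ‖pos (ω j) - pos (ω i)‖ ≤ C * ((j : ℝ) - i) ^ (1 - c / Real.log T)) := by
  obtain ⟨c, C, hc, -, hC, h⟩ := Pool.Agent.Y981.QB.fin_seg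
  refine ⟨c, C, hc, hC, fun n T hn hT => ?_⟩
  have h1 := h n T hn hT
  have hfin := H978R2.Hex.saws_finite n
  have hpos := Pool.Agent.Y981.QB.saws_card_pos n
  unfold prob
  unfold Pool.Agent.Y981.QB.prob at h1
  rw [walks_eq]
  rw [div_le_iff₀ hpos] at h1
  rw [le_div_iff₀ hpos]
  set A := {ω ∈ H978R2.Hex.saws n | ∃ i j : Fin (n + 1), i < j ∧
      C * ((j : ℝ) - i) ^ (1 - c / Real.log T) <
        ‖H978R2.Hex.pos (ω i) - H978R2.Hex.pos (ω j)‖} with hA
  set B := {ω ∈ H978R2.Hex.saws n | ∀ i j : Fin (n + 1), i < j →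
      ‖pos (ω j) - pos (ω i)‖ ≤ C * ((j : ℝ) - i) ^ (1 - c / Real.log T)} with hB
  have hsub : H978R2.Hex.saws n ⊆ A ∪ B := by
    intro ω hω
    by_cases hb : ∀ i j : Fin (n + 1), i < j →
        ‖pos (ω j) - pos (ω i)‖ ≤ C * ((j : ℝ) - i) ^ (1 - c / Real.log T)
    · exact Or.inr ⟨hω, hb⟩
    · refine Or.inl ⟨hω, ?_⟩
      push Not at hb
      obtain ⟨i, j, hij, hd⟩ := hb
      refine ⟨i, j, hij, ?_⟩
      rw [norm_sub_rev, ← pos_eq, ← pos_eq]
      exact hd
  have hcard : (H978R2.Hex.saws n).ncard ≤ A.ncard + B.ncard :=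
    (Set.ncard_le_ncard hsub ((hfin.subset fun ω hω => hω.1).union
      (hfin.subset fun ω hω => hω.1))).trans (Set.ncard_union_le _ _)
  have hcard' : ((H978R2.Hex.saws n).ncard : ℝ) ≤ A.ncard + B.ncard := by exact_mod_cast hcard
  linarith

end Pool.Agent.Results.MP_b440f6_pr.AllSegments
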