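import Pool.Agent.Y981.QB.Fin4

/-!
Self-avoiding walks on the honeycomb lattice (brick-wall coordinates, same description as in the
frozen statement): an almost power law upper bound for the mean-square displacement.
-/

set_option autoImplicit false

namespace Pool.Agent.Results.MP_b440f6_pr.AlmostPowerLaw

/-- Adjacency in the honeycomb lattice (brick-wall model), as in the frozen statement. -/
def Nbr (p q : ℤ × ℤ) : Prop :=
  (p.2 = q.2 ∧ (p.1 - q.1 = 1 ∨ q.1 - p.1 = 1)) ∨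
    (p.1 = q.1 ∧ ((q.2 = p.2 + 1 ∧ Even (p.1 + p.2)) ∨ (p.2 = q.2 + 1 ∧ Even (q.1 + q.2))))

/-- The set of `n`-step self-avoiding walks from the origin. -/
def walks (n : ℕ) : Set (Fin (n + 1) → ℤ × ℤ) :=
  {ω | ω 0 = (0, 0) ∧ Function.Injective ω ∧ ∀ i : Fin n, Nbr (ω i.castSucc) (ω i.succ)}

/-- The vertex of the regular honeycomb lattice with edge length `1` in the plane, the origin at `0`,
which has the brick-wall coordinates `p`. -/
noncomputable def pos (p : ℤ × ℤ) : ℂ :=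
  ⟨√3 / 2 * p.1, (3 * p.2 - ((p.1 + p.2) % 2 : ℤ)) / 2⟩

/-- The mean-square displacement of the `n`-step self-avoiding walk. -/
noncomputable def D (n : ℕ) : ℝ :=
  (∑ᶠ ω ∈ walks n, ‖pos (ω (Fin.last n))‖ ^ 2) / ((walks n).ncard : ℝ)

/-- The probability that the `n`-step self-avoiding walk has property `A`. -/
noncomputable def prob (n : ℕ) (A : (Fin (n + 1) → ℤ × ℤ) → Prop) : ℝ :=
  ({ω ∈ walks n | A ω}.ncard : ℝ) / ((walks n).ncard : ℝ)

theorem pos_eq (p : ℤ × ℤ) : pos p = H978R2.Hex.pos p := by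
  unfold pos H978R2.Hex.pos H978R2.Hex.ht
  push_cast
  rfl

theorem nbr_iff (p q : ℤ × ℤ) : Nbr p q ↔ H978R2.Hex.Adj p q := by
  obtain ⟨a, b⟩ := p
  obtain ⟨x, y⟩ := q
  unfold Nbr H978R2.Hex.Adj
  simp only [Prod.mk_sub_mk, Prod.mk.injEq]
  constructor
  · rintro (⟨h1, h2 | h2⟩ | ⟨h1, ⟨h2, h3⟩ | ⟨h2, h3⟩⟩)
    · right; left; omega
    · left; omega
    · right; right; left; exact ⟨by omega, h3⟩
    · right; right; right; exact ⟨by omega, h3⟩
  · rintro (h | h | ⟨h, h'⟩ | ⟨h, h'⟩)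
    · left; omega
    · left; omega
    · right; exact ⟨by omega, Or.inl ⟨by omega, h'⟩⟩
    · right; exact ⟨by omega, Or.inr ⟨by omega, h'⟩⟩

theorem walks_eq (n : ℕ) : walks n = H978R2.Hex.saws n := by
  ext f
  unfold walks H978R2.Hex.saws
  simp only [Set.mem_ofPred_eq]
  constructor
  · rintro ⟨h1, h2, h3⟩
    exact ⟨h1, h2, fun i => (nbr_iff _ _).1 (h3 i)⟩
  · rintro ⟨h1, h2, h3⟩
    exact ⟨h1, h2, fun i => (nbr_iff _ _).2 (h3 i)⟩

theorem pos_zero : pos (0, 0) = 0 := by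
  unfold pos
  norm_num
  rfl

/-- **Theorem.** On the honeycomb lattice (unit edges) there are constants `c, C > 0` such that for
all `n ≥ 16` the mean-square displacement of the `n`-step self-avoiding walk satisfies
`D n ≤ C n^{2 - c / log log n}`, and the probability that two of its vertices have distance at least
`n^{1 - c / log log n}` is at most `C exp(-n^{4/5})`. -/
theorem result : ∃ c C : ℝ, 0 < c ∧ 0 < C ∧ ∀ n : ℕ, 16 ≤ n →
    D n ≤ C * (n : ℝ) ^ (2 - c / Real.log (Real.log n)) ∧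
    prob n (fun ω => ∃ i j, (n : ℝ) ^ (1 - c / Real.log (Real.log n)) ≤
      ‖pos (ω i) - pos (ω j)‖) ≤ C * Real.exp (-(n : ℝ) ^ (4 / 5 : ℝ)) := by
  obtain ⟨c, C, hc, -, hC, -, h1, h2⟩ := Pool.Agent.Y981.QB.fin2
  refine ⟨c, C, hc, hC, fun n hn => ?_⟩
  constructor
  · refine le_trans (le_of_eq ?_) (h2 n hn (fun ω => ‖pos (ω (Fin.last n))‖ ^ 2) ?_)
    · unfold D Pool.Agent.Y981.QB.mean
      rw [walks_eq]
    · intro ω hω
      have h3 := Pool.Agent.Y981.QB.le_diam ω (Fin.last n) 0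
      have h4 : ω 0 = (0, 0) := hω.1
      rw [← pos_eq, ← pos_eq, h4, pos_zero, sub_zero] at h3
      exact pow_le_pow_left₀ (norm_nonneg _) h3 2
  · refine le_trans (le_trans (le_of_eq ?_) (Pool.Agent.Y981.QB.prob_mono (n := n)
      (A := fun ω => ∃ i j, (n : ℝ) ^ (1 - c / Real.log (Real.log n)) ≤
        ‖pos (ω i) - pos (ω j)‖) ?_)) (h1 n hn)
    · unfold prob Pool.Agent.Y981.QB.prob
      rw [walks_eq]
    · rintro ω - ⟨i, j, hij⟩
      have h3 := Pool.Agent.Y981.QB.le_diam ω i j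
      rw [← pos_eq, ← pos_eq] at h3
      exact hij.trans h3

end Pool.Agent.Results.MP_b440f6_pr.AlmostPowerLaw
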