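import Pool.Agent.Y943.SL.Lat

/-!
Self-avoiding walks on the honeycomb lattice: if `c_n / (n^β μ^n)` converges to a positive constant
along a set of lengths which meets `{n, n+2, n+4, ...}` before `n + o(√n)`, then it converges along all
lengths.
-/

set_option autoImplicit false

namespace Pool.Agent.Results.MP_b440f6_pr.SparseLengths

open Filter Topology

/-- Adjacency in the honeycomb lattice (brick-wall model), as in the frozen statement. -/
def Nbr (p q : ℤ × ℤ) : Prop :=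
  (p.2 = q.2 ∧ (p.1 - q.1 = 1 ∨ q.1 - p.1 = 1)) ∨
    (p.1 = q.1 ∧ ((q.2 = p.2 + 1 ∧ Even (p.1 + p.2)) ∨ (p.2 = q.2 + 1 ∧ Even (q.1 + q.2))))

/-- The number of `n`-step self-avoiding walks from the origin. -/
noncomputable def c (n : ℕ) : ℕ :=
  Set.ncard {ω : Fin (n + 1) → ℤ × ℤ |
    ω 0 = (0, 0) ∧ Function.Injective ω ∧ ∀ i : Fin n, Nbr (ω i.castSucc) (ω i.succ)}

theorem nbr_iff (p q : ℤ × ℤ) : Nbr p q ↔ TH966.AK.AdjH p q := by
  obtain ⟨a, b⟩ := p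
  obtain ⟨x, y⟩ := q
  unfold Nbr TH966.AK.AdjH
  simp only [Prod.mk_sub_mk, Prod.mk.injEq]
  constructor
  · rintro (⟨h1, h2 | h2⟩ | ⟨h1, ⟨h2, h3⟩ | ⟨h2, h3⟩⟩)
    · right; left; omega
    · left; omega
    · right; right; left; exact ⟨by omega, h3⟩
    · right; right; right; exact ⟨by omega, h3⟩
  · rintro (h | h | ⟨h, h'⟩ | ⟨h, h'⟩)
    · left; omega
    · left; omega
    · right; exact ⟨by omega, Or.inl ⟨by omega, h'⟩⟩
    · right; exact ⟨by omega, Or.inr ⟨by omega, h'⟩⟩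

theorem c_eq (n : ℕ) : c n = Set.ncard {f : Fin (n + 1) → ℤ × ℤ |
    f 0 = 0 ∧ Function.Injective f ∧ ∀ i : Fin n, TH966.AK.AdjH (f i.castSucc) (f i.succ)} := by
  unfold c
  congr 1
  ext f
  simp only [Set.mem_ofPred_eq]
  constructor
  · rintro ⟨h1, h2, h3⟩
    exact ⟨h1, h2, fun i => (nbr_iff _ _).1 (h3 i)⟩
  · rintro ⟨h1, h2, h3⟩
    exact ⟨h1, h2, fun i => (nbr_iff _ _).2 (h3 i)⟩

/-- **Theorem.** Let `c n` be the number of `n`-step self-avoiding walks on the honeycomb lattice and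
`μ = √(2+√2)`. Let `S` be a set of lengths such that for every `δ > 0` and all large `n` there is an
`m ∈ S` of the parity of `n` with `n ≤ m ≤ n + δ √n`. If `c n / (n^β μ^n) → A > 0` as `n → ∞` in `S`,
then `c n / (n^β μ^n) → A` as `n → ∞`. -/
theorem result :
    ∀ S : Set ℕ,
      (∀ δ : ℝ, 0 < δ → ∀ᶠ n : ℕ in atTop, ∃ m ∈ S, m % 2 = n % 2 ∧ n ≤ m ∧
        (m : ℝ) ≤ n + δ * Real.sqrt n) →
      ∀ A β : ℝ, 0 < A →
        Tendsto (fun n : ℕ => (c n : ℝ) / ((n : ℝ) ^ β * Real.sqrt (2 + Real.sqrt 2) ^ n))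
          (atTop ⊓ 𝓟 S) (𝓝 A) →
        Tendsto (fun n : ℕ => (c n : ℝ) / ((n : ℝ) ^ β * Real.sqrt (2 + Real.sqrt 2) ^ n))
          atTop (𝓝 A) := by
  intro S hS A β hA h
  obtain ⟨W, -, hμ⟩ := Pool.Agent.Y943.SL.wk_hex c c_eq _ rfl
  rw [hμ] at W
  simp only [mul_comm ((_ : ℝ) ^ β)] at h ⊢
  exact W.form S hS A β hA h

end Pool.Agent.Results.MP_b440f6_pr.SparseLengths
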